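import Mathlib

/-!
# Kodaira dimension, numerical dimension and products
-/

set_option autoImplicit false

namespace Pool.Agent.Q173.AB

universe u

/-- The numerical data of a class of varieties: dimension, Kodaira dimension (`⊥` is `-∞`), numerical
dimension of the canonical bundle, dimension of the image of the Albanese map, and products. -/
structure Data (V : Type u) where
  /-- the dimension -/
  dim : V → ℕ
  /-- the Kodaira dimension -/
  kappa : V → WithBot ℕ
  /-- the numerical dimension of the canonical bundle -/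
  nu : V → ℕ
  /-- the dimension of the image of the Albanese map -/
  alb : V → ℕ
  /-- products -/
  prod : V → V → V

namespace Data

variable {V : Type u} (G : Data V)

/-- The known properties of the class of all projective manifolds with nef canonical bundle (and of
other classes which contain a curve of genus two). -/
structure IsKnown : Prop where
  dim_prod : ∀ X Y, G.dim (G.prod X Y) = G.dim X + G.dim Y
  kappa_prod : ∀ X Y, G.kappa (G.prod X Y) = G.kappa X + G.kappa Y
  nu_prod : ∀ X Y, G.nu (G.prod X Y) = G.nu X + G.nu Y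
  alb_prod : ∀ X Y, G.alb (G.prod X Y) = G.alb X + G.alb Y
  kappa_le : ∀ X, G.kappa X ≤ (G.nu X : WithBot ℕ)
  nu_le : ∀ X, G.nu X ≤ G.dim X
  big : ∀ X, G.nu X = G.dim X → G.kappa X = (G.nu X : WithBot ℕ)
  zero : ∀ X, G.nu X = 0 → G.kappa X = 0
  curve : ∃ C, G.dim C = 1 ∧ G.nu C = 1 ∧ G.alb C = 1

/-- The powers `X^(m + 1)`. -/
def pow (X : V) : ℕ → V
  | 0 => X
  | m + 1 => G.prod (pow X m) X

/-- The known properties of the class of all projective manifolds with pseudo-effective canonical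
bundle: `ν` is the numerical dimension, `F` the general fibre of the Iitaka fibration. -/
structure IsPsef : Prop where
  dim_prod : ∀ X Y, G.dim (G.prod X Y) = G.dim X + G.dim Y
  kappa_prod : ∀ X Y, G.kappa (G.prod X Y) = G.kappa X + G.kappa Y
  nu_pow : ∀ X m, (m + 1) * G.nu X ≤ G.nu (G.pow X m)
  nu_le : ∀ X, G.nu X ≤ G.dim X
  zero : ∀ X, G.nu X = 0 → G.kappa X = 0
  iitaka : ∀ X, G.kappa X ≠ ⊥ → ∃ F, G.kappa F = 0 ∧
    (G.nu F = 0 → G.kappa X = (G.nu X : WithBot ℕ))

/-- The equality `κ(X) = ν(X)`. -/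
def Good (X : V) : Prop := G.kappa X = (G.nu X : WithBot ℕ)

/-- The inequality `κ(X) ≥ t`. -/
def KappaGe (X : V) (t : ℝ) : Prop := ∃ k : ℕ, G.kappa X = (k : WithBot ℕ) ∧ t ≤ k

/-- The inequality `κ(X) > t`. -/
def KappaGt (X : V) (t : ℝ) : Prop := ∃ k : ℕ, G.kappa X = (k : WithBot ℕ) ∧ t < k

/-- The variety `X` is almost of general type and almost of maximal Albanese dimension, with respect
to `D`, `f`, `r`: the number `d = dim X - ν(X)` is at least `D`, the dimension of `X` is at least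
`f(d)`, and the dimension of the fibres of the Albanese map (onto its image) is at most `r d`. -/
def Almost (D : ℕ) (f : ℕ → ℕ) (r : ℕ) (X : V) : Prop :=
  D + G.nu X ≤ G.dim X ∧ f (G.dim X - G.nu X) ≤ G.dim X ∧
    G.dim X ≤ G.alb X + r * (G.dim X - G.nu X)

end Data

namespace Data

variable {V : Type u} {G : Data V}

/-- The products of `X` with powers of `C`. -/
def stack (G : Data V) (X C : V) : ℕ → V
  | 0 => X
  | k + 1 => G.prod (stack G X C k) C

lemma nsmul_coe (m k : ℕ) : m • (k : WithBot ℕ) = ((m * k : ℕ) : WithBot ℕ) := by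
  induction m with
  | zero => simp
  | succ m ih => rw [succ_nsmul, ih]; push_cast; ring

namespace IsKnown

variable (hG : G.IsKnown)

include hG

lemma dim_pow (X : V) (m : ℕ) : G.dim (G.pow X m) = (m + 1) * G.dim X := by
  induction m with
  | zero => simp [pow]
  | succ m ih => rw [pow, hG.dim_prod, ih]; ring

lemma nu_pow (X : V) (m : ℕ) : G.nu (G.pow X m) = (m + 1) * G.nu X := by
  induction m with
  | zero => simp [pow]
  | succ m ih => rw [pow, hG.nu_prod, ih]; ring

lemma kappa_pow (X : V) (m : ℕ) : G.kappa (G.pow X m) = (m + 1) • G.kappa X := by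
  induction m with
  | zero => simp [pow]
  | succ m ih => rw [pow, hG.kappa_prod, ih]; rw [← succ_nsmul]

lemma dim_stack (X C : V) (k : ℕ) : G.dim (G.stack X C k) = G.dim X + k * G.dim C := by
  induction k with
  | zero => simp [stack]
  | succ m ih => rw [stack, hG.dim_prod, ih]; ring

lemma nu_stack (X C : V) (k : ℕ) : G.nu (G.stack X C k) = G.nu X + k * G.nu C := by
  induction k with
  | zero => simp [stack]
  | succ m ih => rw [stack, hG.nu_prod, ih]; ring

lemma alb_stack (X C : V) (k : ℕ) : G.alb (G.stack X C k) = G.alb X + k * G.alb C := by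
  induction k with
  | zero => simp [stack]
  | succ m ih => rw [stack, hG.alb_prod, ih]; ring

lemma kappa_stack (X C : V) (k : ℕ) : G.kappa (G.stack X C k) = G.kappa X + k • G.kappa C := by
  induction k with
  | zero => simp [stack]
  | succ m ih => rw [stack, hG.kappa_prod, ih, succ_nsmul, add_assoc]

/-- If `κ(X) < ν(X)`, there are almost big varieties with a large difference `ν - κ`. -/
lemma amplify {X : V} (hX : ¬ G.Good X) {N : ℕ} (hN : G.dim X ≤ N) (D : ℕ) (f : ℕ → ℕ) :
    ∃ Y, G.Almost D f N Y ∧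
      ¬ G.KappaGt Y (G.nu Y - (G.dim Y - G.nu Y : ℕ) / ((N - 1 : ℕ) : ℝ)) := by
  obtain ⟨C, hC1, hC2, hC3⟩ := hG.curve
  have hC4 : G.kappa C = ((1 : ℕ) : WithBot ℕ) := by
    rw [hG.big C (by rw [hC1, hC2]), hC2]
  have h1 : 1 ≤ G.nu X := by
    by_contra h
    have h0 : G.nu X = 0 := by omega
    exact hX (by unfold Good; rw [hG.zero X h0, h0]; rfl)
  have h2 : G.nu X < G.dim X := by
    rcases (hG.nu_le X).lt_or_eq with h | h
    · exact h
    · exact absurd (hG.big X h) hX
  have h2N : 2 ≤ N := by omega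
  let Z := G.pow X D
  let k := f (G.dim Z - G.nu Z)
  refine ⟨G.stack Z C k, ⟨?_, ?_, ?_⟩, ?_⟩
  · rw [hG.dim_stack, hG.nu_stack, hC1, hC2, hG.dim_pow, hG.nu_pow]
    nlinarith
  · rw [hG.dim_stack, hG.nu_stack, hC1, hC2]
    have : G.dim Z + k * 1 - (G.nu Z + k * 1) = G.dim Z - G.nu Z := by omega
    rw [this]
    show k ≤ _
    omega
  · rw [hG.dim_stack, hG.nu_stack, hG.alb_stack, hC1, hC2, hC3]
    have : G.dim Z + k * 1 - (G.nu Z + k * 1) = G.dim Z - G.nu Z := by omega
    rw [this]
    have h3 : G.dim Z ≤ N * (G.dim Z - G.nu Z) := by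
      show G.dim (G.pow X D) ≤ N * (G.dim (G.pow X D) - G.nu (G.pow X D))
      rw [hG.dim_pow, hG.nu_pow, ← Nat.mul_sub]
      calc (D + 1) * G.dim X ≤ (D + 1) * N := Nat.mul_le_mul_left _ hN
        _ = N * ((D + 1) * 1) := by ring
        _ ≤ N * ((D + 1) * (G.dim X - G.nu X)) :=
          Nat.mul_le_mul_left _ (Nat.mul_le_mul_left _ (by omega))
    omega
  · rintro ⟨j, hj, hj'⟩
    rw [hG.kappa_stack, hG.kappa_pow, hC4, nsmul_coe] at hj
    rw [hG.dim_stack, hG.nu_stack, hC1, hC2, hG.dim_pow, hG.nu_pow] at hj'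
    cases hk : G.kappa X with
    | bot =>
      rw [hk] at hj
      have : (D + 1) • (⊥ : WithBot ℕ) = ⊥ := by
        rw [succ_nsmul, WithBot.add_bot]
      rw [this, WithBot.bot_add] at hj
      exact WithBot.bot_ne_coe hj
    | coe l =>
      rw [hk] at hj
      have h4 : l + 1 ≤ G.nu X := by
        have h5 := hG.kappa_le X
        rw [hk] at h5
        have h6 : l ≤ G.nu X := WithBot.coe_le_coe.1 h5
        rcases h6.lt_or_eq with h | h
        · omega
        · exact absurd (by unfold Good; rw [hk, h]; rfl) hX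
      have h5 : (D + 1) * l + k * 1 = j := by
        have h7 : (D + 1) • ((l : ℕ) : WithBot ℕ) = (((D + 1) * l : ℕ) : WithBot ℕ) :=
          nsmul_coe _ _
        change (D + 1) • ((l : ℕ) : WithBot ℕ) + _ = _ at hj
        rw [h7] at hj
        exact_mod_cast hj
      have h8 : ((D + 1) * G.dim X + k * 1 - ((D + 1) * G.nu X + k * 1) : ℕ) =
          (D + 1) * (G.dim X - G.nu X) := by
        rw [Nat.mul_sub]
        omega
      rw [h8] at hj'
      have h9 : ((G.dim X - G.nu X : ℕ) : ℝ) ≤ ((N - 1 : ℕ) : ℝ) := by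
        exact_mod_cast (by omega)
      have h10 : (0 : ℝ) < ((N - 1 : ℕ) : ℝ) := by exact_mod_cast (by omega)
      have h11 : (((D + 1) * (G.dim X - G.nu X) : ℕ) : ℝ) / ((N - 1 : ℕ) : ℝ) ≤ (D + 1 : ℕ) := by
        rw [div_le_iff₀ h10]
        push_cast
        have : (0 : ℝ) ≤ (D : ℝ) + 1 := by positivity
        have h12 := mul_le_mul_of_nonneg_left h9 this
        exact h12
      have h13 : (j : ℝ) = (D + 1) * l + k := by
        rw [← h5]
        push_cast
        ring
      have h14 : (l : ℝ) + 1 ≤ G.nu X := by exact_mod_cast h4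
      push_cast at hj' h11
      rw [h13] at hj'
      nlinarith

/-- The implication for bounded dimension. -/
lemma level (N D : ℕ) (f : ℕ → ℕ) (h : ∀ X, G.Almost D f N X →
    G.KappaGt X (G.nu X - (G.dim X - G.nu X : ℕ) / ((N - 1 : ℕ) : ℝ))) (X : V)
    (hX : G.dim X ≤ N) : G.Good X := by
  by_contra hcon
  obtain ⟨Y, hY, hY'⟩ := hG.amplify hcon hX D f
  exact hY' (h Y hY)

end IsKnown

lemma Good.kappaGe {X : V} (h : G.Good X) {t : ℝ} (ht : t ≤ G.nu X) : G.KappaGe X t :=
  ⟨G.nu X, h, ht⟩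

lemma KappaGe.gt {X : V} {s t : ℝ} (h : G.KappaGe X t) (hst : s < t) : G.KappaGt X s := by
  obtain ⟨k, hk, hk'⟩ := h
  exact ⟨k, hk, hst.trans_le hk'⟩

namespace IsPsef

variable (hG : G.IsPsef)

include hG

lemma dim_pow (X : V) (m : ℕ) : G.dim (G.pow X m) = (m + 1) * G.dim X := by
  induction m with
  | zero => simp [pow]
  | succ m ih => rw [pow, hG.dim_prod, ih]; ring

lemma kappa_pow (X : V) (m : ℕ) : G.kappa (G.pow X m) = (m + 1) • G.kappa X := by
  induction m with
  | zero => simp [pow]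
  | succ m ih => rw [pow, hG.kappa_prod, ih]; rw [← succ_nsmul]

/-- A fixed proportion of the numerical dimension suffices. -/
lemma good {c : ℝ} (hc : 0 < c) (h : ∀ ε : ℝ, 0 < ε → ∃ D : ℕ, ∀ X, D ≤ G.dim X →
    G.KappaGe X (c * G.nu X - ε * G.dim X)) (X : V) : G.Good X := by
  have h0 : G.nu X = 0 → G.Good X := fun h0 => by
    unfold Good
    rw [hG.zero X h0, h0]
    rfl
  by_cases hX : G.nu X = 0
  · exact h0 hX
  have hd : 1 ≤ G.dim X := by
    have := hG.nu_le X
    omega
  have hbot : G.kappa X ≠ ⊥ := by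
    intro hb
    obtain ⟨D, hD⟩ := h 1 one_pos
    obtain ⟨k, hk, -⟩ := hD (G.pow X D) (by rw [hG.dim_pow]; nlinarith)
    rw [hG.kappa_pow, hb, succ_nsmul, WithBot.add_bot] at hk
    exact WithBot.bot_ne_coe hk
  obtain ⟨F, hF, hF'⟩ := hG.iitaka X hbot
  by_cases hν : G.nu F = 0
  · exact hF' hν
  exfalso
  have hνF : (1 : ℝ) ≤ G.nu F := by exact_mod_cast Nat.one_le_iff_ne_zero.2 hν
  have hdF : (1 : ℝ) ≤ G.dim F := by
    have := hG.nu_le F
    exact_mod_cast (by omega : 1 ≤ G.dim F)
  obtain ⟨D, hD⟩ := h (c * G.nu F / (2 * G.dim F)) (by positivity)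
  obtain ⟨k, hk, hk'⟩ := hD (G.pow F D) (by
    rw [hG.dim_pow]
    have : 1 ≤ G.dim F := by exact_mod_cast hdF
    nlinarith)
  rw [hG.kappa_pow, hF, smul_zero] at hk
  have hk0 : k = 0 := by
    have : ((0 : ℕ) : WithBot ℕ) = (k : WithBot ℕ) := hk
    exact (WithBot.coe_injective this).symm
  rw [hk0, hG.dim_pow] at hk'
  have h1 : ((D : ℝ) + 1) * G.nu F ≤ G.nu (G.pow F D) := by exact_mod_cast hG.nu_pow F D
  have h2 : c * G.nu F / (2 * G.dim F) * (((D + 1) * G.dim F : ℕ) : ℝ) =
      (D + 1) * (c * G.nu F / 2) := by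
    push_cast
    field_simp
  rw [h2] at hk'
  have h3 : c * (((D : ℝ) + 1) * G.nu F) ≤ c * G.nu (G.pow F D) :=
    mul_le_mul_of_nonneg_left h1 hc.le
  have h4 : 0 < ((D : ℝ) + 1) * (c * G.nu F / 2) := by positivity
  push_cast at hk'
  nlinarith

end IsPsef

end Data

end Pool.Agent.Q173.AB
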